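import Mathlib

/-!
# Second cohomology classes, twisted group algebras and the number `z`

* `Cocycle k H`: 2-cocycles of a group `H` with values in `kˣ` (trivial action);
* `H2 k H`: cocycles modulo coboundaries, i.e. `H²(H, kˣ)`;
* `TwAlg a`: the group algebra of `H` twisted by the cocycle `a`, in its (faithful) left regular
  representation: the algebra generated by the operators `L_g e_h = a(g,h) e_{gh}`;
* `zNum A`: the number of isomorphism classes of simple projective `A`-modules.
-/

namespace Pool.Agent.H380FS

universe u v w

/-- A 2-cocycle of the group `H` with values in the multiplicative group of `k`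
(trivial action of `H`). -/
structure Cocycle (k : Type u) [Field k] (H : Type v) [Group H] where
  /-- the values of the cocycle -/
  toFun : H → H → kˣ
  /-- the cocycle identity -/
  cocycle : ∀ g h l, toFun g h * toFun (g * h) l = toFun h l * toFun g (h * l)

section

variable {k : Type u} [Field k] {H : Type v} [Group H] {H' : Type w} [Group H']

/-- Two cocycles are cohomologous if they differ by a coboundary. -/
def Cohomologous (a b : Cocycle k H) : Prop :=
  ∃ c : H → kˣ, ∀ g h, b.toFun g h = a.toFun g h * (c g * c h * (c (g * h))⁻¹)

theorem cohomologous_equivalence (k : Type u) [Field k] (H : Type v) [Group H] :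
    Equivalence (Cohomologous (k := k) (H := H)) where
  refl := fun a => ⟨fun _ => 1, fun g h => by simp⟩
  symm := by
    rintro a b ⟨c, hc⟩
    refine ⟨fun g => (c g)⁻¹, fun g h => ?_⟩
    rw [hc]
    have : (a.toFun g h * (c g * c h * (c (g * h))⁻¹)) *
      ((c g)⁻¹ * (c h)⁻¹ * ((c (g * h))⁻¹)⁻¹) = a.toFun g h *
      ((c g * (c g)⁻¹) * (c h * (c h)⁻¹) * (c (g * h) * (c (g * h))⁻¹)) := by
      rw [inv_inv]; ac_rfl
    rw [this]; simp
  trans := by
    rintro a b d ⟨c, hc⟩ ⟨c', hc'⟩
    refine ⟨fun g => c g * c' g, fun g h => ?_⟩
    show _ = a.toFun g h * (c g * c' g * (c h * c' h) * (c (g * h) * c' (g * h))⁻¹)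
    rw [hc', hc, mul_inv]
    ac_rfl

/-- The relation of being cohomologous, as a setoid. -/
def cocycleSetoid (k : Type u) [Field k] (H : Type v) [Group H] : Setoid (Cocycle k H) :=
  ⟨Cohomologous, by exact cohomologous_equivalence k H⟩

/-- The second cohomology group `H²(H, kˣ)` (as a set): 2-cocycles modulo coboundaries. -/
def H2 (k : Type u) [Field k] (H : Type v) [Group H] : Type (max u v) :=
  Quotient (cocycleSetoid k H)

/-- The pullback of a cocycle along a group homomorphism. -/
def Cocycle.comap (f : H' →* H) (a : Cocycle k H) : Cocycle k H' where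
  toFun g h := a.toFun (f g) (f h)
  cocycle g h l := by simpa using a.cocycle (f g) (f h) (f l)

/-- The trivial cocycle. -/
def Cocycle.one (k : Type u) [Field k] (H : Type v) [Group H] : Cocycle k H where
  toFun _ _ := 1
  cocycle _ _ _ := rfl

theorem cohomologous_comap (f : H' →* H) (a b : Cocycle k H) (h : Cohomologous a b) :
    Cohomologous (a.comap f) (b.comap f) := by
  obtain ⟨c, hc⟩ := h
  exact ⟨fun g => c (f g), fun g h => by simp [Cocycle.comap, hc]⟩

/-- The pullback (restriction, inflation) of cohomology classes along a group homomorphism. -/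
def H2.comap (f : H' →* H) : H2 k H → H2 k H' :=
  Quotient.map (sa := cocycleSetoid k H) (sb := cocycleSetoid k H') (Cocycle.comap f)
    (by exact cohomologous_comap f)

/-- The trivial class. -/
def H2.one (k : Type u) [Field k] (H : Type v) [Group H] : H2 k H :=
  Quotient.mk (cocycleSetoid k H) (Cocycle.one k H)

/-- The operator `L_g` of the twisted regular representation on the functions `H → k`:
`(L_g f)(x) = a(g, g⁻¹x) f(g⁻¹x)`, so that `L_g e_h = a(g,h) e_{gh}` and
`L_g L_h = a(g,h) L_{gh}`. -/
def regOp (a : Cocycle k H) (g : H) : Module.End k (H → k) where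
  toFun f x := a.toFun g (g⁻¹ * x) * f (g⁻¹ * x)
  map_add' f f' := by ext x; simp [mul_add]
  map_smul' r f := by ext x; simp [mul_left_comm]

/-- The twisted group algebra `k_a H`, realized on its (faithful) regular representation. -/
def TwAlg (a : Cocycle k H) : Subalgebra k (Module.End k (H → k)) :=
  Algebra.adjoin k (Set.range (regOp a))

/-- The setoid of `A`-module isomorphism on the maximal left ideals `m` of `A` whose (simple)
quotient module `A/m` is projective. -/
def simpleProjSetoid (A : Type u) [Ring A] :
    Setoid {m : Submodule A A // IsCoatom m ∧ Module.Projective A (A ⧸ m)} where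
  r m n := Nonempty ((A ⧸ m.1) ≃ₗ[A] (A ⧸ n.1))
  iseqv :=
    { refl := fun _ => ⟨LinearEquiv.refl _ _⟩
      symm := fun ⟨e⟩ => ⟨e.symm⟩
      trans := fun ⟨e⟩ ⟨f⟩ => ⟨e.trans f⟩ }

/-- `z(A)`: the number of isomorphism classes of simple projective `A`-modules. (Every simple
module is isomorphic to `A/m` for a maximal left ideal `m`, so we count the modules `A/m` which
are projective, up to isomorphism.) -/
noncomputable def zNum (A : Type u) [Ring A] : ℕ := Nat.card (Quotient (simpleProjSetoid A))

end

end Pool.Agent.H380FS
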