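import Pool.Agent.H380FS.Main

/-!
# The alternating chain sum identity: final form
-/

namespace Pool.Agent.H380FS

universe u v

variable {G : Type u} [Group G] {F : FusionSystem G}
variable [Finite G] {p : ℕ} [Fact p.Prime] {k : Type v} [Field k] [Weight.{u, v} k]

namespace FusionSystem

theorem k_congr_aux (hsat : F.IsSaturated p) (hp : IsPGroup p F.S) (hne : F.S ≠ ⊥)
    (F' : FusionSystem G) (hF : F' = F) (α : F.Family k) (α' : F'.Family k)
    (h : ∀ x P, F.IsTriple ∅ x P → zTw ((α'.res ∅ {x}) P) = zTw ((α.res ∅ {x}) P)) :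
    F'.k α' = F.k α := by
  subst hF
  rw [FusionSystem.k, FusionSystem.k]
  refine finsum_congr fun c => ?_
  rw [w, w]
  refine finsum_congr fun d => ?_
  refine h _ _ ?_
  obtain ⟨hm, -⟩ := rep_spec (F := F') c
  have hspec := rep_full (F := F') c
  refine isTriple_of_centric hsat hp hne chain0_empty
    (FullyCentralized.maximal (x := F'.rep c) hspec) ?_ d.out.2
  refine mem_stab.2 ⟨hm, fun Q hQ => absurd hQ (Set.notMem_empty _),
    fun Q hQ => absurd hQ (Set.notMem_empty _)⟩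

theorem k_localSub_empty (hsat : F.IsSaturated p) (hp : IsPGroup p F.S) (hne : F.S ≠ ⊥)
    {α : F.Family k} (hα : α.IsoInvariant) :
    (F.localSub ∅ ∅).k (α.res ∅ ∅) = F.k α :=
  k_congr_aux hsat hp hne _ localSub_empty α _ fun _ _ ht => tterm_empty hsat hp hα ht

omit [Finite G] in
theorem mor_sSup_image {σ : Set (Subgroup G)} {g : G → G} (hg : F.Mor (sSup σ) g) :
    sSup (im g '' σ) = im g (sSup σ) :=
  (im_sSup hg.mulOn fun _ hQ => le_sSup hQ).symm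

/-- **The alternating chain sum identity.** -/
theorem alternating_sum (hsat : F.IsSaturated p) (hp : IsPGroup p F.S) (hne : F.S ≠ ⊥)
    {α : F.Family k} (hα : α.IsoInvariant) (𝒞 : Finset (Set (Subgroup G)))
    (h1 : ∀ σ ∈ 𝒞, F.IsNormalChain σ ∧ FullyNormalizedChain F σ)
    (h2 : ∀ σ, F.IsNormalChain σ → FullyNormalizedChain F σ →
      ∃! τ, τ ∈ 𝒞 ∧ F.ChainIso σ τ) :
    (F.k α : ℤ) =
      ∑ σ ∈ 𝒞, (-1) ^ (σ.ncard - 1) * ((F.localSub σ ∅).k (α.res σ ∅) : ℤ) := by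
  classical
  have hempty : ∅ ∉ 𝒞 := fun h => (h1 ∅ h).1.nonempty.ne_empty rfl
  have hD : ∀ σ ∈ insert ∅ 𝒞, Chain0 F.S σ ∧ F.Maximal σ ∅ := by
    intro σ hσ
    rcases Finset.mem_insert.1 hσ with rfl | hσ
    · exact ⟨chain0_empty, maximal_empty⟩
    · exact ⟨(h1 σ hσ).1.chain0, (h1 σ hσ).2.maximal hsat hp⟩
  have hD1 : ∀ σ ∈ insert ∅ 𝒞, ∀ τ ∈ insert ∅ 𝒞, ∀ g, F.Mor (sSup σ) g →
      im g '' σ = τ → σ = τ := by
    intro σ hσ τ hτ g hg hgσ
    rcases Finset.mem_insert.1 hσ with rfl | hσ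
    · rw [← hgσ, Set.image_empty]
    · have hσn := (h1 σ hσ).1
      rcases Finset.mem_insert.1 hτ with rfl | hτ
      · exact absurd (hσn.nonempty.image (im g)) (by rw [hgσ]; exact Set.not_nonempty_empty)
      · have hid : F.ChainIso σ σ := chainIso_iff.2
          ⟨id, Mor.id' (sSup_le hσn.le), image_im_id σ⟩
        exact (h2 σ hσn (h1 σ hσ).2).unique ⟨hσ, hid⟩ ⟨hτ, chainIso_iff.2 ⟨g, hg, hgσ⟩⟩
  have hD2 : ∀ σ, Chain0 F.S σ → ∃ τ ∈ insert ∅ 𝒞, ∃ g, F.Mor (sSup σ) g ∧ im g '' σ = τ := by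
    intro σ hσ
    rcases σ.eq_empty_or_nonempty with rfl | hne'
    · refine ⟨∅, Finset.mem_insert_self _ _, id, Mor.id' ?_, Set.image_empty _⟩
      rw [sSup_empty]; exact bot_le
    · have hσn : F.IsNormalChain σ := ⟨hne', hσ.ne_bot, hσ.le, hσ.chain, hσ.normal⟩
      obtain ⟨g₁, hg₁, hg₁n⟩ := exists_fullyNormalizedChain hsat hp hσn
      obtain ⟨τ, ⟨hτ, hτ'⟩, -⟩ := h2 _ (hσn.image hg₁ le_rfl) hg₁n
      obtain ⟨g₂, hg₂, hg₂τ⟩ := chainIso_iff.1 hτ'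
      refine ⟨τ, Finset.mem_insert_of_mem hτ, g₂ ∘ g₁, hg₁.comp hg₂ ?_, ?_⟩
      · intro y hy
        rw [mor_sSup_image hg₁]
        exact mem_im_of_mem g₁ hy
      · rw [← hg₂τ, image_im_comp hg₁.mulOn fun Q hQ => le_sSup hQ]
  have hsum := main_sum hsat hp hne hα (insert ∅ 𝒞) hD hD1 hD2
  rw [Finset.sum_insert hempty, k_localSub_empty hsat hp hne hα, Set.ncard_empty, pow_zero,
    one_mul] at hsum
  have h3 : ∀ σ ∈ 𝒞, (-1 : ℤ) ^ (σ.ncard - 1) * ((F.localSub σ ∅).k (α.res σ ∅) : ℤ) =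
      - ((-1) ^ σ.ncard * ((F.localSub σ ∅).k (α.res σ ∅) : ℤ)) := by
    intro σ hσ
    have hpos : 0 < σ.ncard := (h1 σ hσ).1.nonempty.ncard_pos
    obtain ⟨n, hn⟩ := Nat.exists_eq_succ_of_ne_zero hpos.ne'
    rw [hn, Nat.succ_eq_add_one, Nat.add_sub_cancel, pow_succ]
    ring
  rw [Finset.sum_congr rfl h3, Finset.sum_neg_distrib]
  linarith

end FusionSystem

end Pool.Agent.H380FS
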