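import Pool.Agent.H380FS.Cent

/-!
# The alternating sum identity
-/

namespace Pool.Agent.H380FS

universe u v

variable {G : Type u} [Group G]

namespace FusionSystem

variable (F : FusionSystem G)

theorem image_im_id (σ : Set (Subgroup G)) : im id '' σ = σ := by
  ext Q
  constructor
  · rintro ⟨Q, hQ, rfl⟩
    rwa [im_id]
  · intro hQ
    exact ⟨Q, hQ, im_id Q⟩

/-- The triples `(σ, x, P)`. -/
def Trip : Type u := {t : Set (Subgroup G) × G × Subgroup G // F.IsTriple t.1 t.2.1 t.2.2}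

/-- The relation of being `F`-conjugate on triples. -/
def TripRel (t t' : F.Trip) : Prop :=
  ∃ g, F.Mor (sSup t.1.1 ⊔ t.1.2.2) g ∧ im g '' t.1.1 = t'.1.1 ∧ g t.1.2.1 = t'.1.2.1 ∧
    im g t.1.2.2 = t'.1.2.2

variable {F}

theorem TripRel.refl (t : F.Trip) : F.TripRel t t :=
  ⟨id, Mor.id' (sup_le t.2.good.sSup_le t.2.good.P_le), image_im_id _, rfl, im_id _⟩

theorem TripRel.symm {t t' : F.Trip} (h : F.TripRel t t') : F.TripRel t' t := by
  obtain ⟨g, hg, h1, h2, h3⟩ := h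
  obtain ⟨g', hg', hg'g, -⟩ := hg.exists_inv
  rw [← sSup_image_sup hg, h1, h3] at hg'
  have hσ : ∀ Q ∈ t.1.1, Q ≤ sSup t.1.1 ⊔ t.1.2.2 := fun Q hQ =>
    (le_sSup hQ).trans le_sup_left
  refine ⟨g', hg', ?_, ?_, ?_⟩
  · rw [← h1, image_im_comp hg.mulOn hσ]
    refine (Set.image_congr fun Q hQ => ?_).trans (image_im_id _)
    exact im_congr fun y hy => hg'g y (hσ Q hQ hy)
  · rw [← h2]
    exact hg'g _ ((le_sup_right : t.1.2.2 ≤ sSup t.1.1 ⊔ t.1.2.2) t.2.x_mem)
  · rw [← h3, ← im_comp hg.mulOn _ le_sup_right]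
    exact (im_congr fun y hy => hg'g y ((le_sup_right : t.1.2.2 ≤ sSup t.1.1 ⊔ t.1.2.2) hy)).trans
      (im_id _)

theorem TripRel.trans {t t' t'' : F.Trip} (h : F.TripRel t t') (h' : F.TripRel t' t'') :
    F.TripRel t t'' := by
  obtain ⟨g, hg, h1, h2, h3⟩ := h
  obtain ⟨g', hg', h1', h2', h3'⟩ := h'
  have hσ : ∀ Q ∈ t.1.1, Q ≤ sSup t.1.1 ⊔ t.1.2.2 := fun Q hQ =>
    (le_sSup hQ).trans le_sup_left
  refine ⟨g' ∘ g, hg.comp hg' ?_, ?_, ?_, ?_⟩
  · intro y hy
    rw [← h1, ← h3, sSup_image_sup hg]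
    exact mem_im_of_mem g hy
  · rw [← image_im_comp hg.mulOn hσ, h1, h1']
  · show g' (g _) = _
    rw [h2, h2']
  · rw [im_comp hg.mulOn _ le_sup_right, h3, h3']

variable (F) in
/-- The conjugacy classes of triples. -/
def tripSetoid : Setoid F.Trip := ⟨F.TripRel, ⟨TripRel.refl, TripRel.symm, TripRel.trans⟩⟩

/-- A morphism mapping a finite chain to itself fixes its members. -/
theorem fixes_of_image_eq [Finite G] {D : Subgroup G} {g : G → G} (hg : F.Mor D g)
    {σ : Set (Subgroup G)}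
    (hσ : ∀ Q ∈ σ, Q ≤ D) (hch : IsChain (· ≤ ·) σ) (h : im g '' σ = σ) :
    ∀ Q ∈ σ, im g Q = Q := by
  intro Q hQ
  have hm : im g Q ∈ σ := by rw [← h]; exact ⟨Q, hQ, rfl⟩
  have hcard : Nat.card (im g Q) = Nat.card Q := by
    have h1 : (im g Q : Set G) = g '' Q := coe_im (hg.mulOn.mono (hσ Q hQ))
    show Nat.card ↥((im g Q : Set G)) = Nat.card ↥(Q : Set G)
    rw [h1, Nat.card_coe_set_eq, Nat.card_coe_set_eq]
    exact Set.InjOn.ncard_image fun y hy z hz e => hg.inj (hσ Q hQ hy) (hσ Q hQ hz) e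
  rcases hch.total hm hQ with h1 | h1
  · exact Subgroup.eq_of_le_of_card_ge h1 hcard.ge
  · exact (Subgroup.eq_of_le_of_card_ge h1 hcard.le).symm

variable [Finite G] {p : ℕ} [Fact p.Prime] {k : Type v} [Field k] [Weight.{u, v} k]

instance : Finite F.Trip := Subtype.finite

/-- The signed term of a triple. -/
noncomputable def val (α : F.Family k) (t : F.Trip) : ℤ :=
  (-1) ^ t.1.1.ncard * (tterm α t.1.1 t.1.2.1 t.1.2.2 : ℤ)

theorem val_rel (hsat : F.IsSaturated p) (hp : IsPGroup p F.S) {α : F.Family k}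
    (hα : α.IsoInvariant) {t t' : F.Trip} (h : F.TripRel t t') : val α t = val α t' := by
  obtain ⟨g, hg, h1, h2, h3⟩ := h
  rw [val, val, tterm_conj hsat hp hα t.2 hg, h1, h2, h3, ← h1]
  congr 2
  symm
  refine Set.InjOn.ncard_image fun Q hQ R hR e => ?_
  exact hg.im_inj ((le_sSup hQ).trans le_sup_left) ((le_sSup hR).trans le_sup_left) e

/-- Toggling triples. -/
noncomputable def toggleT (hp : IsPGroup p F.S) (t : F.Trip) : F.Trip :=
  ⟨(toggle t.1.1 t.1.2.2, t.1.2.1, t.1.2.2), t.2.toggle hp⟩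

theorem toggleT_toggleT (hp : IsPGroup p F.S) (t : F.Trip) :
    toggleT hp (toggleT hp t) = t := by
  apply Subtype.ext
  show (toggle (toggle t.1.1 t.1.2.2) t.1.2.2, t.1.2.1, t.1.2.2) = t.1
  rw [t.2.good.toggle_toggle hp]

theorem toggleT_rel (hp : IsPGroup p F.S) {t t' : F.Trip} (h : F.TripRel t t') :
    F.TripRel (toggleT hp t) (toggleT hp t') := by
  obtain ⟨g, hg, h1, h2, h3⟩ := h
  refine ⟨g, ?_, ?_, h2, h3⟩
  · show F.Mor (sSup (toggle t.1.1 t.1.2.2) ⊔ t.1.2.2) g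
    rw [t.2.good.sSup_toggle hp]
    exact hg
  · show im g '' (toggle t.1.1 t.1.2.2) = toggle t'.1.1 t'.1.2.2
    rw [← h1, ← h3, hg.toggle le_sup_left le_sup_right]

theorem val_toggleT (hsat : F.IsSaturated p) (hp : IsPGroup p F.S) {α : F.Family k}
    (hα : α.IsoInvariant) (t : F.Trip) : val α (toggleT hp t) = - val α t := by
  show (-1) ^ (toggle t.1.1 t.1.2.2).ncard *
    (tterm α (toggle t.1.1 t.1.2.2) t.1.2.1 t.1.2.2 : ℤ) = -((-1) ^ t.1.1.ncard *
      (tterm α t.1.1 t.1.2.1 t.1.2.2 : ℤ))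
  rw [tterm_toggle hsat hp hα t.2, t.2.good.ncard_toggle]
  ring

/-- The signed term of a class of triples. -/
noncomputable def valC (hsat : F.IsSaturated p) (hp : IsPGroup p F.S) {α : F.Family k}
    (hα : α.IsoInvariant) : Quotient F.tripSetoid → ℤ :=
  Quotient.lift (val α) fun _ _ h => val_rel hsat hp hα h

/-- Toggling classes of triples. -/
noncomputable def toggleC (hp : IsPGroup p F.S) : Quotient F.tripSetoid →
    Quotient F.tripSetoid :=
  Quotient.map' (toggleT hp) fun _ _ h => toggleT_rel hp h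

theorem sum_valC [Fintype (Quotient F.tripSetoid)] (hsat : F.IsSaturated p)
    (hp : IsPGroup p F.S) {α : F.Family k}
    (hα : α.IsoInvariant) : ∑ c : Quotient F.tripSetoid, valC hsat hp hα c = 0 := by
  have h1 : ∀ c, valC hsat hp hα (toggleC hp c) = - valC hsat hp hα c := by
    intro c
    induction c using Quotient.inductionOn with
    | h t => exact val_toggleT hsat hp hα t
  refine Finset.sum_involution (fun c _ => toggleC hp c) ?_ ?_ ?_ ?_
  · intro c _
    rw [h1]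
    ring
  · intro c _ hc e
    have := h1 c
    rw [e] at this
    omega
  · intro c _
    exact Finset.mem_univ _
  · intro c _
    induction c using Quotient.inductionOn with
    | h t => exact congrArg (Quotient.mk _) (toggleT_toggleT hp t)

/-! ### The index set of the right-hand side -/

variable (F) in
/-- The index set of the double sum `k(N_F(σ), α(σ))`. -/
abbrev Idx (σ : Set (Subgroup G)) : Type u :=
  Σ c : Quotient (F.localSub σ ∅).elemSetoid,
    Quotient ((F.localSub σ ∅).localSub ∅ {(F.localSub σ ∅).rep c}).centricSetoid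

instance (E : FusionSystem G) : Finite (Quotient E.elemSetoid) := Quotient.finite _

instance (E : FusionSystem G) : Finite (Quotient E.centricSetoid) := Quotient.finite _

theorem k_eq_sum (α : F.Family k) (σ : Set (Subgroup G)) :
    (F.localSub σ ∅).k (α.res σ ∅) =
      ∑ᶠ i : F.Idx σ, tterm α σ ((F.localSub σ ∅).rep i.1) i.2.out.1 := by
  classical
  let : Fintype (Quotient (F.localSub σ ∅).elemSetoid) := Fintype.ofFinite _
  let : ∀ c : Quotient (F.localSub σ ∅).elemSetoid,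
    Fintype (Quotient ((F.localSub σ ∅).localSub ∅ {(F.localSub σ ∅).rep c}).centricSetoid) :=
      fun c => Fintype.ofFinite _
  rw [FusionSystem.k, finsum_eq_sum_of_fintype, finsum_eq_sum_of_fintype]
  have : ∀ c : Quotient (F.localSub σ ∅).elemSetoid,
      ((F.localSub σ ∅).localSub ∅ {(F.localSub σ ∅).rep c}).w
        ((α.res σ ∅).res ∅ {(F.localSub σ ∅).rep c}) =
      ∑ d : Quotient ((F.localSub σ ∅).localSub ∅ {(F.localSub σ ∅).rep c}).centricSetoid,
        tterm α σ ((F.localSub σ ∅).rep c) d.out.1 := by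
    intro c
    rw [w, finsum_eq_sum_of_fintype]
    rfl
  rw [Finset.sum_congr rfl fun c _ => this c]
  exact (Fintype.sum_sigma (fun i : F.Idx σ =>
    tterm α σ ((F.localSub σ ∅).rep i.1) i.2.out.1)).symm

omit [Finite G] in
theorem centric_iter {σ : Set (Subgroup G)} {x : G} {P : Subgroup G} (hS : span σ ∅ ≤ F.S)
    (hx : x ∈ F.stab σ ∅) :
    ((F.localSub σ ∅).localSub ∅ {x}).Centric P ↔ (F.localSub σ {x}).Centric P := by
  rw [localSub_iter hS hx]

omit [Finite G] in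
theorem mor_iter {σ : Set (Subgroup G)} {x : G} {P : Subgroup G} {f : G → G}
    (hS : span σ ∅ ≤ F.S) (hx : x ∈ F.stab σ ∅) :
    ((F.localSub σ ∅).localSub ∅ {x}).Mor P f ↔ (F.localSub σ {x}).Mor P f := by
  rw [localSub_iter hS hx]

/-- Properties of the index: the corresponding triple. -/
theorem isTriple_index (hsat : F.IsSaturated p) (hp : IsPGroup p F.S) (hne : F.S ≠ ⊥)
    {σ : Set (Subgroup G)} (hσ : Chain0 F.S σ) (hmax : F.Maximal σ ∅) (i : F.Idx σ) :
    F.IsTriple σ ((F.localSub σ ∅).rep i.1) i.2.out.1 ∧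
      F.Maximal σ {(F.localSub σ ∅).rep i.1} ∧ (F.localSub σ ∅).rep i.1 ∈ F.stab σ ∅ := by
  obtain ⟨c, d⟩ := i
  have h2 : (F.localSub σ ∅).rep c ∈ (F.localSub σ ∅).S := (rep_spec c).1
  rw [localSub_S hmax.1] at h2
  have h3 := Maximal.union hsat hp hmax
    (FullyCentralized.maximal (x := (F.localSub σ ∅).rep c) (rep_full c))
  rw [Set.union_empty, Set.empty_union] at h3
  have h4 := (centric_iter hmax.1 h2).1 d.out.2
  exact ⟨isTriple_of_centric hsat hp hne hσ h3 h2 h4, h3, h2⟩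

omit [Finite G] in
theorem chain0_empty : Chain0 F.S (∅ : Set (Subgroup G)) where
  ne_bot _ hQ := absurd hQ (Set.notMem_empty _)
  le _ hQ := absurd hQ (Set.notMem_empty _)
  chain := Set.subsingleton_empty.isChain
  normal _ hQ := absurd hQ (Set.notMem_empty _)

/-- The main combinatorial identity, with the empty chain included. -/
theorem main_sum (hsat : F.IsSaturated p) (hp : IsPGroup p F.S) (hne : F.S ≠ ⊥)
    {α : F.Family k} (hα : α.IsoInvariant) (𝒟 : Finset (Set (Subgroup G)))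
    (hD : ∀ σ ∈ 𝒟, Chain0 F.S σ ∧ F.Maximal σ ∅)
    (hD1 : ∀ σ ∈ 𝒟, ∀ τ ∈ 𝒟, ∀ g, F.Mor (sSup σ) g → im g '' σ = τ → σ = τ)
    (hD2 : ∀ σ, Chain0 F.S σ → ∃ τ ∈ 𝒟, ∃ g, F.Mor (sSup σ) g ∧ im g '' σ = τ) :
    ∑ σ ∈ 𝒟, (-1) ^ σ.ncard * ((F.localSub σ ∅).k (α.res σ ∅) : ℤ) = 0 := by
  classical
  let : Fintype (Quotient F.tripSetoid) := Fintype.ofFinite _
  let : ∀ σ, Fintype (F.Idx σ) := fun σ => Fintype.ofFinite _
  have hT : ∀ (σ : 𝒟) (i : F.Idx σ.1),
      F.IsTriple σ.1 ((F.localSub σ.1 ∅).rep i.1) i.2.out.1 := fun σ i =>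
    (isTriple_index hsat hp hne (hD σ.1 σ.2).1 (hD σ.1 σ.2).2 i).1
  let Φ : (Σ σ : 𝒟, F.Idx σ.1) → Quotient F.tripSetoid := fun j =>
    Quotient.mk _ ⟨(j.1.1, (F.localSub j.1.1 ∅).rep j.2.1, j.2.2.out.1), hT j.1 j.2⟩
  have hΦ : Function.Bijective Φ := by
    constructor
    · rintro ⟨⟨σ, hσ⟩, ⟨c, d⟩⟩ ⟨⟨σ', hσ'⟩, ⟨c', d'⟩⟩ h
      obtain ⟨g, hg, h1, h2, h3⟩ := Quotient.exact h
      have hσσ' : σ = σ' := hD1 σ hσ σ' hσ' g (hg.mono le_sup_left) h1
      subst hσσ'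
      obtain ⟨hc0, hmax⟩ := hD σ hσ
      have hg' : F.Mor (sSup σ ⊔ d.out.1) g := hg
      have h1' : im g '' σ = σ := h1
      have h2' : g ((F.localSub σ ∅).rep c) = (F.localSub σ ∅).rep c' := h2
      have h3' : im g d.out.1 = d'.out.1 := h3
      have ht : F.IsTriple σ ((F.localSub σ ∅).rep c) d.out.1 :=
        (isTriple_index hsat hp hne hc0 hmax ⟨c, d⟩).1
      have hmaxx : F.Maximal σ {(F.localSub σ ∅).rep c} :=
        (isTriple_index hsat hp hne hc0 hmax ⟨c, d⟩).2.1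
      have hxst : (F.localSub σ ∅).rep c ∈ F.stab σ ∅ :=
        (isTriple_index hsat hp hne hc0 hmax ⟨c, d⟩).2.2
      have hfix : ∀ Q ∈ σ, im g Q = Q := fixes_of_image_eq hg'
        (fun Q hQ => (le_sSup hQ).trans le_sup_left) hc0.chain h1'
      have hcc' : c = c' := by
        obtain ⟨hm, hcm⟩ := rep_spec (F := F.localSub σ ∅) c
        obtain ⟨hm', hcm'⟩ := rep_spec (F := F.localSub σ ∅) c'
        rw [← hcm, ← hcm']
        refine Quotient.sound (s := (F.localSub σ ∅).elemSetoid) (conj_iff.2 ⟨g, ?_, h2'⟩)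
        refine (localSub_mor hmax.1).2 ⟨?_, g, hg'.mono (sup_le ?_ ?_),
          ⟨hfix, fun y hy => absurd hy (Set.notMem_empty _)⟩, fun _ _ => rfl⟩
        · rw [Subgroup.zpowers_le]; exact hxst
        · rw [span_empty_right]; exact le_sup_left
        · rw [Subgroup.zpowers_le]
          exact (le_sup_right : d.out.1 ≤ sSup σ ⊔ d.out.1) ht.x_mem
      subst hcc'
      have hdd' : d = d' := by
        rw [← d.out_eq, ← d'.out_eq]
        refine Quotient.sound (s := ((F.localSub σ ∅).localSub ∅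
          {(F.localSub σ ∅).rep c}).centricSetoid)
          (iso_iff.2 ⟨g, (mor_iter hmax.1 hxst).2 ?_, h3'⟩)
        refine (localSub_mor hmaxx.1).2 ⟨ht.le_stab', g, hg'.mono (sup_le ht.span_le le_sup_right),
          ⟨hfix, fun y hy => ?_⟩, fun _ _ => rfl⟩
        rw [Set.mem_singleton_iff.1 hy]
        exact h2'
      subst hdd'
      rfl
    · intro q
      induction q using Quotient.inductionOn with
      | h t =>
      obtain ⟨⟨σ, x, P⟩, ht⟩ := t
      have ht' : F.IsTriple σ x P := ht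
      -- move the chain
      obtain ⟨σ₀, hσ₀, h, hh, hhσ⟩ := hD2 σ
        ⟨ht'.good.ne_bot, ht'.good.le, ht'.good.chain, ht'.good.normal⟩
      obtain ⟨hc0, hmax⟩ := hD σ₀ hσ₀
      obtain ⟨ρ, hρ, hρQ, -⟩ := hmax.extend hsat hp (𝒬 := σ) (X := ∅) (h := h)
        (by rw [span_empty_right]; exact hh) hhσ (Set.image_empty _)
      have hρ1 : F.Mor (sSup σ ⊔ P) ρ := by
        refine hρ.mono (sup_le_sup ?_ ht'.le_stab)
        rw [span_empty_right]
      have hρσ : im ρ '' σ = σ₀ := by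
        rw [← hhσ]
        exact Set.image_congr fun Q hQ => hρQ Q hQ
      have ht1 := ht'.image hρ1
      rw [hρσ] at ht1
      set x₁ := ρ x with hx₁
      set P₁ := im ρ P with hP₁
      -- move the element
      have hx₁S : x₁ ∈ (F.localSub σ₀ ∅).S := by
        rw [localSub_S hmax.1]; exact ht1.le_stab ht1.x_mem
      let c : Quotient (F.localSub σ₀ ∅).elemSetoid := Quotient.mk _ ⟨x₁, hx₁S⟩
      obtain ⟨hm, hcm⟩ := rep_spec (F := F.localSub σ₀ ∅) c
      have hconj : (F.localSub σ₀ ∅).Conj x₁ ((F.localSub σ₀ ∅).rep c) :=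
        Quotient.exact hcm.symm
      obtain ⟨κ, hκ, hκx⟩ := conj_iff.1 hconj
      obtain ⟨-, κ', hκ', hκf, hκy⟩ := (localSub_mor hmax.1).1 hκ
      have hx₀st : (F.localSub σ₀ ∅).rep c ∈ F.stab σ₀ ∅ := by
        rw [localSub_S hmax.1] at hm; exact hm
      have hmaxx : F.Maximal σ₀ {(F.localSub σ₀ ∅).rep c} := by
        have h3 := Maximal.union hsat hp hmax
          (FullyCentralized.maximal (x := (F.localSub σ₀ ∅).rep c) (rep_full c))
        rwa [Set.union_empty, Set.empty_union] at h3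
      have hκx' : κ' x₁ = (F.localSub σ₀ ∅).rep c := by
        rw [hκy x₁ (Subgroup.mem_zpowers x₁), hκx]
      have hspan1 : span σ₀ {x₁} = span σ₀ ∅ ⊔ Subgroup.zpowers x₁ := by
        have := span_union σ₀ ∅ ∅ {x₁}
        rwa [Set.union_empty, Set.empty_union, span_elem] at this
      obtain ⟨ρ₂, hρ₂, hρ₂Q, hρ₂x⟩ := hmaxx.extend hsat hp (𝒬 := σ₀) (X := {x₁}) (h := κ')
        (by rw [hspan1]; exact hκ') hκf.image_eq (by rw [Set.image_singleton, hκx'])
      have hρ₂Q' : ∀ Q ∈ σ₀, im ρ₂ Q = Q := fun Q hQ => by rw [hρ₂Q Q hQ, hκf.1 Q hQ]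
      have hρ₂x' : ρ₂ x₁ = (F.localSub σ₀ ∅).rep c := by rw [hρ₂x x₁ rfl, hκx']
      have hρ₂σ : im ρ₂ '' σ₀ = σ₀ := by
        ext Q
        constructor
        · rintro ⟨Q, hQ, rfl⟩
          rwa [hρ₂Q' Q hQ]
        · intro hQ
          exact ⟨Q, hQ, hρ₂Q' Q hQ⟩
      have hρ₂1 : F.Mor (sSup σ₀ ⊔ P₁) ρ₂ := by
        refine hρ₂.mono (sup_le_sup ?_ ht1.le_stab')
        rw [span]; exact le_sup_left
      have ht2 := ht1.image hρ₂1
      rw [hρ₂σ, hρ₂x'] at ht2
      set P₂ := im ρ₂ P₁ with hP₂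
      -- move the subgroup
      have hcent : ((F.localSub σ₀ ∅).localSub ∅ {(F.localSub σ₀ ∅).rep c}).Centric P₂ := by
        rw [localSub_iter hmax.1 hx₀st]
        exact ht2.centric_local
      let d : Quotient ((F.localSub σ₀ ∅).localSub ∅
        {(F.localSub σ₀ ∅).rep c}).centricSetoid := Quotient.mk _ ⟨P₂, hcent⟩
      have hiso : ((F.localSub σ₀ ∅).localSub ∅ {(F.localSub σ₀ ∅).rep c}).Iso P₂ d.out.1 :=
        Quotient.exact (s := ((F.localSub σ₀ ∅).localSub ∅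
          {(F.localSub σ₀ ∅).rep c}).centricSetoid) d.out_eq.symm
      obtain ⟨μ, hμ, hμP⟩ := iso_iff.1 hiso
      rw [localSub_iter hmax.1 hx₀st] at hμ
      obtain ⟨-, μ', hμ', hμf, hμy⟩ := (localSub_mor hmaxx.1).1 hμ
      refine ⟨⟨⟨σ₀, hσ₀⟩, ⟨c, d⟩⟩, ?_⟩
      refine Quotient.sound (s := F.tripSetoid) ?_
      have r1 : F.TripRel ⟨(σ, x, P), ht⟩ ⟨(σ₀, x₁, P₁), ht1⟩ := ⟨ρ, hρ1, hρσ, rfl, rfl⟩
      have r2 : F.TripRel ⟨(σ₀, x₁, P₁), ht1⟩ ⟨(σ₀, (F.localSub σ₀ ∅).rep c, P₂), ht2⟩ :=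
        ⟨ρ₂, hρ₂1, hρ₂σ, hρ₂x', rfl⟩
      have r3 : F.TripRel ⟨(σ₀, (F.localSub σ₀ ∅).rep c, P₂), ht2⟩
          ⟨(σ₀, (F.localSub σ₀ ∅).rep c, d.out.1), hT ⟨σ₀, hσ₀⟩ ⟨c, d⟩⟩ := by
        refine ⟨μ', hμ'.mono (sup_le_sup ?_ le_rfl), hμf.image_eq, hμf.2 _ rfl, ?_⟩
        · rw [span]; exact le_sup_left
        · exact (im_congr hμy).trans hμP
      exact ((r1.trans r2).trans r3).symm
  have hsum := sum_valC hsat hp hα
  rw [← Fintype.sum_bijective Φ hΦ (fun j => valC hsat hp hα (Φ j)) (valC hsat hp hα)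
    (fun _ => rfl), Fintype.sum_sigma] at hsum
  rw [← Finset.sum_coe_sort 𝒟 (fun σ : Set (Subgroup G) =>
    ((-1) ^ σ.ncard * ((F.localSub σ ∅).k (α.res σ ∅) : ℤ) : ℤ)), ← hsum]
  refine Finset.sum_congr rfl fun σ _ => ?_
  rw [k_eq_sum, finsum_eq_sum_of_fintype, Nat.cast_sum, Finset.mul_sum]
  rfl

end FusionSystem

end Pool.Agent.H380FS
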