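import Pool.Agent.H380FS.D1

/-!
# Invariance of `z`
-/

namespace Pool.Agent.H380FS

universe u v w

/-- `z` is invariant under ring isomorphisms. -/
theorem zNum_congr {A : Type u} {B : Type v} [Ring A] [Ring B] (e : A ≃+* B) :
    zNum A = zNum B := by
  let : RingHomInvPair (e : A →+* B) (e.symm : B →+* A) := RingHomInvPair.of_ringEquiv e
  let : RingHomInvPair (e.symm : B →+* A) (e : A →+* B) := RingHomInvPair.of_ringEquiv e.symm
  have key : ∀ (m : Submodule A A),
      (IsCoatom m ∧ Module.Projective A (A ⧸ m)) ↔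
        (IsCoatom (Submodule.orderIsoMapComap e.toSemilinearEquiv m) ∧
          Module.Projective B (B ⧸ Submodule.orderIsoMapComap e.toSemilinearEquiv m)) := by
    intro m
    have h1 : IsCoatom (Submodule.orderIsoMapComap e.toSemilinearEquiv m) ↔ IsCoatom m :=
      (Submodule.orderIsoMapComap e.toSemilinearEquiv).isCoatom_iff m
    have e2 := Submodule.Quotient.equiv m (Submodule.orderIsoMapComap e.toSemilinearEquiv m)
      e.toSemilinearEquiv rfl
    constructor
    · rintro ⟨h, hP⟩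
      exact ⟨h1.2 h, Module.Projective.of_equiv e2⟩
    · rintro ⟨h, hP⟩
      exact ⟨h1.1 h, Module.Projective.of_equiv e2.symm⟩
  refine Nat.card_congr (Quotient.congr
    ((Submodule.orderIsoMapComap e.toSemilinearEquiv).toEquiv.subtypeEquiv key) ?_)
  rintro ⟨m, hm⟩ ⟨n, hn⟩
  have e2 := Submodule.Quotient.equiv m (Submodule.orderIsoMapComap e.toSemilinearEquiv m)
      e.toSemilinearEquiv rfl
  have e3 := Submodule.Quotient.equiv n (Submodule.orderIsoMapComap e.toSemilinearEquiv n)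
      e.toSemilinearEquiv rfl
  constructor
  · rintro ⟨f⟩
    exact ⟨(e2.symm.trans f).trans e3⟩
  · rintro ⟨f⟩
    exact ⟨(e2.trans f).trans e3.symm⟩

section

variable {k : Type u} [Field k] {H : Type v} [Group H] {H' : Type w} [Group H']

/-- The linear equivalence `e_h ↦ d(h) e_{e(h)}`. -/
def scaleEquiv (e : H ≃* H') (d : H → kˣ) : (H → k) ≃ₗ[k] (H' → k) where
  toFun f x := d (e.symm x) * f (e.symm x)
  map_add' f f' := by ext x; simp [mul_add]
  map_smul' r f := by ext x; simp [mul_left_comm]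
  invFun f x := ((d x)⁻¹ : kˣ) * f (e x)
  left_inv f := by ext x; simp
  right_inv f := by ext x; simp

theorem conj_regOp {a : Cocycle k H} {b : Cocycle k H'} (e : H ≃* H') (c : H → kˣ)
    (hc : ∀ g h, b.toFun (e g) (e h) = a.toFun g h * (c g * c h * (c (g * h))⁻¹)) (g : H) :
    (scaleEquiv e fun h => (c h)⁻¹).conjAlgEquiv k (regOp a g) =
      (((c g)⁻¹ : kˣ) : k) • regOp b (e g) := by
  ext1 f
  funext x'
  obtain ⟨x, rfl⟩ := e.surjective x'
  show (((c (e.symm (e x)))⁻¹ : kˣ) : k) * ((a.toFun g (g⁻¹ * e.symm (e x)) : k) *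
    (((((c (g⁻¹ * e.symm (e x)))⁻¹)⁻¹ : kˣ) : k) * f (e (g⁻¹ * e.symm (e x))))) =
    (((c g)⁻¹ : kˣ) : k) * ((b.toFun (e g) ((e g)⁻¹ * e x) : k) * f ((e g)⁻¹ * e x))
  rw [e.symm_apply_apply, ← map_inv, ← map_mul, hc, inv_inv, mul_inv_cancel_left]
  have : (c g)⁻¹ * (a.toFun g (g⁻¹ * x) * (c g * c (g⁻¹ * x) * (c x)⁻¹)) =
    (c x)⁻¹ * a.toFun g (g⁻¹ * x) * c (g⁻¹ * x) := by
    have : (c g)⁻¹ * (a.toFun g (g⁻¹ * x) * (c g * c (g⁻¹ * x) * (c x)⁻¹)) =
      ((c g)⁻¹ * c g) * ((c x)⁻¹ * a.toFun g (g⁻¹ * x) * c (g⁻¹ * x)) := by ac_rfl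
    rw [this, inv_mul_cancel, one_mul]
  have h2 := congrArg Units.val this
  push_cast at h2 ⊢
  linear_combination (- f (e (g⁻¹ * x))) * h2

theorem zNum_twisted {a : Cocycle k H} {b : Cocycle k H'} (e : H ≃* H')
    (h : Cohomologous a (b.comap e.toMonoidHom)) :
    zNum (TwAlg a) = zNum (TwAlg b) := by
  obtain ⟨c, hc⟩ := h
  have hc' : ∀ g h, b.toFun (e g) (e h) = a.toFun g h * (c g * c h * (c (g * h))⁻¹) := hc
  set Φ := (scaleEquiv (k := k) e fun h => (c h)⁻¹).conjAlgEquiv k with hΦ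
  have key := conj_regOp (a := a) (b := b) e c hc'
  have h1 : (TwAlg a).map (Φ : _ →ₐ[k] _) = TwAlg b := by
    rw [TwAlg, AlgHom.map_adjoin, TwAlg]
    apply le_antisymm
    · refine Algebra.adjoin_le ?_
      rintro _ ⟨_, ⟨g, rfl⟩, rfl⟩
      show Φ (regOp a g) ∈ Algebra.adjoin k (Set.range (regOp b))
      rw [key g]
      exact Subalgebra.smul_mem _ (Algebra.subset_adjoin (Set.mem_range_self (e g))) _
    · refine Algebra.adjoin_le ?_
      rintro _ ⟨g', rfl⟩
      obtain ⟨g, rfl⟩ := e.surjective g'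
      have h2 : regOp b (e g) = ((c g : kˣ) : k) • Φ (regOp a g) := by
        rw [key g, smul_smul, ← Units.val_mul, mul_inv_cancel, Units.val_one, one_smul]
      show regOp b (e g) ∈ Algebra.adjoin k _
      rw [h2]
      exact Subalgebra.smul_mem _ (Algebra.subset_adjoin
        (Set.mem_image_of_mem _ (Set.mem_range_self g))) _
  have e1 : TwAlg a ≃ₐ[k] TwAlg b :=
    (AlgEquiv.subalgebraMap Φ (TwAlg a)).trans (Subalgebra.equivOfEq _ _ h1)
  exact zNum_congr e1.toRingEquiv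

theorem zNum_cohomologous (a b : Cocycle k H) (h : Cohomologous a b) :
    zNum (TwAlg a) = zNum (TwAlg b) := zNum_twisted (MulEquiv.refl H) h

end

end Pool.Agent.H380FS
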