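import Pool.Agent.H380FS.D3

/-!
# Local subsystems: proofs
-/

namespace Pool.Agent.H380FS

universe u v

variable {G : Type u} [Group G]

/-- The version of `Fixes` for maps `G → G`. -/
def FixesFun (𝒬 : Set (Subgroup G)) (X : Set G) (f : G → G) : Prop :=
  (∀ Q ∈ 𝒬, im f Q = Q) ∧ ∀ y ∈ X, f y = y

theorem le_span {𝒬 : Set (Subgroup G)} (X : Set G) {Q : Subgroup G} (h : Q ∈ 𝒬) :
    Q ≤ span 𝒬 X := (le_sSup h).trans le_sup_left

theorem mem_span (𝒬 : Set (Subgroup G)) {X : Set G} {x : G} (h : x ∈ X) :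
    x ∈ span 𝒬 X :=
  (le_sup_right : _ ≤ span 𝒬 X) (Subgroup.subset_closure h)

theorem span_le {𝒬 : Set (Subgroup G)} {X : Set G} {R : Subgroup G} :
    span 𝒬 X ≤ R ↔ (∀ Q ∈ 𝒬, Q ≤ R) ∧ ∀ x ∈ X, x ∈ R := by
  rw [span, sup_le_iff, sSup_le_iff, Subgroup.closure_le]
  rfl

theorem fixes_iff {𝒬 : Set (Subgroup G)} {X : Set G} {R : Subgroup G} {ψ : R →* G} {f : G → G}
    (hf : ∀ y : R, ψ y = f y) (h : span 𝒬 X ≤ R) : Fixes 𝒬 X ψ ↔ FixesFun 𝒬 X f := by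
  rw [span_le] at h
  have hm : MulOn R f := fun y hy z hz => by
    rw [← hf ⟨y, hy⟩, ← hf ⟨z, hz⟩, ← map_mul, hf]; rfl
  refine and_congr (forall₂_congr fun Q hQ => ?_) ⟨fun h1 y hy => ?_, fun h1 y hy => ?_⟩
  · have : (Q.subgroupOf R).map ψ = im f Q := by
      ext y
      rw [mem_im (hm.mono (h.1 Q hQ)), Subgroup.mem_map]
      constructor
      · rintro ⟨z, hz, rfl⟩
        exact ⟨z, hz, (hf z).symm⟩
      · rintro ⟨z, hz, rfl⟩
        exact ⟨⟨z, h.1 Q hQ hz⟩, hz, hf _⟩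
    rw [this]
  · rw [← hf ⟨y, h.2 y hy⟩]
    exact h1 _ hy
  · rw [hf]
    exact h1 _ hy

theorem FixesFun.congr {𝒬 : Set (Subgroup G)} {X : Set G} {f g : G → G}
    (h : FixesFun 𝒬 X f) (e : ∀ y ∈ span 𝒬 X, f y = g y) : FixesFun 𝒬 X g := by
  refine ⟨fun Q hQ => ?_, fun y hy => ?_⟩
  · exact (im_congr fun y hy => (e y (le_span X hQ hy)).symm).trans (h.1 Q hQ)
  · rw [← e y (mem_span 𝒬 hy), h.2 y hy]

theorem FixesFun.image_eq {𝒬 : Set (Subgroup G)} {X : Set G} {g : G → G}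
    (h : FixesFun 𝒬 X g) : im g '' 𝒬 = 𝒬 := by
  ext R
  constructor
  · rintro ⟨R', hR', rfl⟩
    rwa [h.1 R' hR']
  · intro hR
    exact ⟨R, hR, h.1 R hR⟩

theorem FixesFun.image_eq' {𝒬 : Set (Subgroup G)} {X : Set G} {g : G → G}
    (h : FixesFun 𝒬 X g) : g '' X = X := by
  ext x
  constructor
  · rintro ⟨x', hx', rfl⟩
    rwa [h.2 x' hx']
  · intro hx
    exact ⟨x, hx, h.2 x hx⟩

theorem FixesFun.comp {𝒬 : Set (Subgroup G)} {X : Set G} {f g : G → G} {R : Subgroup G}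
    (hR : span 𝒬 X ≤ R) (hm : MulOn R f)
    (h : FixesFun 𝒬 X f) (h' : FixesFun 𝒬 X g) : FixesFun 𝒬 X (g ∘ f) := by
  refine ⟨fun Q hQ => ?_, fun y hy => ?_⟩
  · rw [im_comp hm Q ((le_span X hQ).trans hR), h.1 Q hQ, h'.1 Q hQ]
  · show g (f y) = y
    rw [h.2 y hy, h'.2 y hy]

theorem im_sup {R : Subgroup G} {f : G → G} (h : MulOn R f) {P Q : Subgroup G} (hP : P ≤ R)
    (hQ : Q ≤ R) : im f (P ⊔ Q) = im f P ⊔ im f Q := by
  have h1 : P ⊔ Q = Subgroup.closure ((P : Set G) ∪ Q) := by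
    rw [Subgroup.closure_union, Subgroup.closure_eq, Subgroup.closure_eq]
  rw [h1, im_closure h (Set.union_subset hP hQ), Set.image_union, Subgroup.closure_union]
  rfl

theorem im_sSup {R : Subgroup G} {f : G → G} (h : MulOn R f) {𝒬 : Set (Subgroup G)}
    (h𝒬 : ∀ Q ∈ 𝒬, Q ≤ R) : im f (sSup 𝒬) = sSup (im f '' 𝒬) := by
  have h1 : ∀ 𝒜 : Set (Subgroup G), sSup 𝒜 = Subgroup.closure (⋃ Q ∈ 𝒜, (Q : Set G)) := by
    intro 𝒜
    rw [sSup_eq_iSup, Subgroup.closure_iUnion]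
    congr 1; ext1 Q
    rw [Subgroup.closure_iUnion]
    simp only [Subgroup.closure_eq]
  rw [h1, im_closure h (Set.iUnion₂_subset h𝒬), Set.image_iUnion₂, Subgroup.closure_iUnion,
    sSup_image]
  congr 1; ext1 Q
  rw [Subgroup.closure_iUnion]
  rfl

theorem im_span {R : Subgroup G} {f : G → G} (h : MulOn R f) {𝒬 : Set (Subgroup G)} {X : Set G}
    (h𝒬 : span 𝒬 X ≤ R) : im f (span 𝒬 X) = span (im f '' 𝒬) (f '' X) := by
  have h2 := span_le.1 h𝒬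
  rw [span, im_sup h (le_sup_left.trans h𝒬) (le_sup_right.trans h𝒬), im_sSup h h2.1,
    im_closure h h2.2]
  rfl

/-- Conjugation by `s`. -/
def cj (s : G) : G → G := fun y => s * y * s⁻¹

theorem mulOn_cj (s : G) (P : Subgroup G) : MulOn P (cj s) := fun y _ z _ => by
  simp [cj]

theorem mem_normalizer_iff_im {s : G} {Q : Subgroup G} :
    s ∈ Subgroup.normalizer (Q : Set G) ↔ im (cj s) Q = Q := by
  constructor
  · intro h
    ext y
    rw [mem_im (mulOn_cj s Q)]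
    constructor
    · rintro ⟨z, hz, rfl⟩
      exact (h z).1 hz
    · intro hy
      refine ⟨s⁻¹ * y * s, (h _).2 ?_, by simp [cj, mul_assoc]⟩
      have : s * (s⁻¹ * y * s) * s⁻¹ = y := by group
      rw [this]; exact hy
  · intro h y
    constructor
    · intro hy
      have := mem_im_of_mem (cj s) (show y ∈ Q from hy)
      rw [h] at this
      exact this
    · intro hy
      have hy' : cj s y ∈ im (cj s) Q := by rw [h]; exact hy
      rw [mem_im (mulOn_cj s Q)] at hy'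
      obtain ⟨z, hz, e⟩ := hy'
      have : z = y := by simpa [cj] using e
      rwa [← this]

namespace FusionSystem

variable (F : FusionSystem G)

theorem Mor.cj {F : FusionSystem G} {P : Subgroup G} {s : G} (hs : s ∈ F.S) (hP : P ≤ F.S) :
    F.Mor P (cj s) := Mor.conj hs hP

variable {F} in
theorem mem_stab {𝒬 : Set (Subgroup G)} {X : Set G} {s : G} :
    s ∈ F.stab 𝒬 X ↔ s ∈ F.S ∧ FixesFun 𝒬 X (H380FS.cj s) := by
  rw [stab, Subgroup.mem_inf, Subgroup.mem_inf, and_assoc]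
  refine and_congr_right fun _ => and_congr ?_ ?_
  · simp only [Subgroup.mem_iInf, mem_normalizer_iff_im]
  · rw [Subgroup.mem_centralizer_iff]
    refine forall₂_congr fun y _ => ?_
    rw [H380FS.cj, mul_inv_eq_iff_eq_mul]
    exact eq_comm

/-- `localHom` for functions. -/
def LMor (𝒬 : Set (Subgroup G)) (X : Set G) (P : Subgroup G) (f : G → G) : Prop :=
  P ≤ F.stab 𝒬 X ∧ ∃ g, F.Mor (span 𝒬 X ⊔ P) g ∧ FixesFun 𝒬 X g ∧ ∀ y ∈ P, g y = f y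

variable {F}

theorem mem_localHom_iff {𝒬 : Set (Subgroup G)} {X : Set G} {P : Subgroup G} {φ : P →* G}
    {f : G → G} (hf : ∀ y : P, φ y = f y) : φ ∈ F.localHom 𝒬 X P ↔ F.LMor 𝒬 X P f := by
  refine and_congr_right fun _ => ⟨?_, ?_⟩
  · rintro ⟨ψ, hψ, h1, h2⟩
    refine ⟨toFun ψ, mor_of_mem hψ,
      (fixes_iff (fun y => (toFun_apply ψ y).symm) le_sup_left).1 h1, fun y hy => ?_⟩
    rw [toFun_apply' ψ ((le_sup_right : P ≤ span 𝒬 X ⊔ P) hy), h2 ⟨y, hy⟩ _ rfl, hf]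
  · rintro ⟨g, ⟨ψ, hψ, h3⟩, h1, h2⟩
    refine ⟨ψ, hψ, (fixes_iff h3 le_sup_left).2 h1, fun y z h => ?_⟩
    rw [h3, h, h2 y y.2, hf]

theorem LMor.congr {𝒬 : Set (Subgroup G)} {X : Set G} {P : Subgroup G} {f f' : G → G}
    (h : F.LMor 𝒬 X P f) (e : ∀ y ∈ P, f y = f' y) : F.LMor 𝒬 X P f' := by
  obtain ⟨h1, g, h2, h3, h4⟩ := h
  exact ⟨h1, g, h2, h3, fun y hy => (h4 y hy).trans (e y hy)⟩

/-- A morphism fixing the data and with source contained in the stabilizer maps to the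
stabilizer. -/
theorem map_stab {𝒬 : Set (Subgroup G)} {X : Set G} {R : Subgroup G} {g : G → G}
    (hg : F.Mor R g) (hR : span 𝒬 X ≤ R) (hf : FixesFun 𝒬 X g) {y : G} (hy : y ∈ R)
    (hy' : y ∈ F.stab 𝒬 X) : g y ∈ F.stab 𝒬 X := by
  rw [mem_stab] at hy' ⊢
  refine ⟨hg.map_mem hy, ?_⟩
  have hR' := span_le.1 hR
  have key : ∀ z ∈ R, H380FS.cj (g y) (g z) = g (H380FS.cj y z) := by
    intro z hz
    rw [H380FS.cj, H380FS.cj, hg.mulOn _ (R.mul_mem hy hz) _ (R.inv_mem hy), hg.mulOn _ hy _ hz,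
      hg.mulOn.inv hy]
  refine ⟨fun Q hQ => ?_, fun x hx => ?_⟩
  · have h1 : im (H380FS.cj (g y) ∘ g) Q = im (g ∘ H380FS.cj y) Q :=
      im_congr fun z hz => key z (hR'.1 Q hQ hz)
    rw [im_comp (hg.mulOn.mono (hR'.1 Q hQ)) Q le_rfl, im_comp (mulOn_cj y Q) Q le_rfl,
      hf.1 Q hQ, hy'.2.1 Q hQ, hf.1 Q hQ] at h1
    exact h1
  · have := key x (hR'.2 x hx)
    rw [hf.2 x hx, hy'.2.2 x hx, hf.2 x hx] at this
    exact this

/-- The image of `⟨𝒬, X⟩ P` under a morphism fixing `𝒬` and `X`. -/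
theorem im_span_sup {𝒬 : Set (Subgroup G)} {X : Set G} {R P : Subgroup G} {g : G → G}
    (hg : MulOn R g) (hR : span 𝒬 X ≤ R) (hP : P ≤ R) (hf : FixesFun 𝒬 X g) :
    im g (span 𝒬 X ⊔ P) = span 𝒬 X ⊔ im g P := by
  rw [im_sup hg hR hP, im_span hg hR, hf.image_eq, hf.image_eq']

theorem LMor.comp {𝒬 : Set (Subgroup G)} {X : Set G} {P Q : Subgroup G} {f f' : G → G}
    (h : F.LMor 𝒬 X P f) (h' : F.LMor 𝒬 X Q f') (hPQ : ∀ y ∈ P, f y ∈ Q) :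
    F.LMor 𝒬 X P (f' ∘ f) := by
  obtain ⟨h1, g, h2, h3, h4⟩ := h
  obtain ⟨h1', g', h2', h3', h4'⟩ := h'
  refine ⟨h1, g' ∘ g, h2.comp h2' ?_, h3.comp le_sup_left h2.mulOn h3', fun y hy => ?_⟩
  · intro y hy
    have h5 : im g (span 𝒬 X ⊔ P) ≤ span 𝒬 X ⊔ Q := by
      rw [im_span_sup h2.mulOn le_sup_left le_sup_right h3]
      refine sup_le_sup le_rfl ?_
      intro y hy
      rw [mem_im (h2.mulOn.mono le_sup_right)] at hy
      obtain ⟨z, hz, rfl⟩ := hy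
      rw [h4 z hz]
      exact hPQ z hz
    exact h5 (mem_im_of_mem g hy)
  · show g' (g y) = f' (f y)
    rw [h4 y hy, h4' _ (hPQ y hy)]

theorem lMor_cj {𝒬 : Set (Subgroup G)} {X : Set G} (hS : span 𝒬 X ≤ F.S) {P : Subgroup G}
    (hP : P ≤ F.stab 𝒬 X) {s : G} (hs : s ∈ F.stab 𝒬 X) : F.LMor 𝒬 X P (H380FS.cj s) := by
  have hs' := mem_stab.1 hs
  refine ⟨hP, H380FS.cj s, Mor.cj hs'.1 (sup_le hS (hP.trans ?_)), hs'.2, fun _ _ => rfl⟩
  exact inf_le_left.trans inf_le_left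

theorem LMor.exists_inv {𝒬 : Set (Subgroup G)} {X : Set G} {P : Subgroup G} {f : G → G}
    (h : F.LMor 𝒬 X P f) : ∃ g, F.LMor 𝒬 X (im f P) g ∧ ∀ y ∈ P, g (f y) = y := by
  obtain ⟨h1, g, h2, h3, h4⟩ := h
  obtain ⟨g', h5, h6, h7⟩ := h2.exists_inv
  have h8 : im g P = im f P := im_congr h4
  have h9 : im g (span 𝒬 X ⊔ P) = span 𝒬 X ⊔ im f P := by
    rw [im_span_sup h2.mulOn le_sup_left le_sup_right h3, h8]
  refine ⟨g', ⟨?_, g', ?_, ⟨?_, ?_⟩, fun _ _ => rfl⟩, fun y hy => ?_⟩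
  · intro y hy
    rw [← h8, mem_im (h2.mulOn.mono le_sup_right)] at hy
    obtain ⟨z, hz, rfl⟩ := hy
    exact map_stab h2 le_sup_left h3 ((le_sup_right : P ≤ span 𝒬 X ⊔ P) hz) (h1 hz)
  · rwa [h9] at h5
  · intro Q hQ
    have hQ' : Q ≤ span 𝒬 X ⊔ P := (le_span X hQ).trans le_sup_left
    have : im g' (im g Q) = Q := by
      rw [← im_comp (h2.mulOn.mono hQ') Q le_rfl]
      have : im (g' ∘ g) Q = im id Q := im_congr fun y hy => h6 y (hQ' hy)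
      rw [this, im_id]
    rwa [h3.1 Q hQ] at this
  · intro x hx
    have := h6 x ((le_sup_left : span 𝒬 X ≤ span 𝒬 X ⊔ P) (mem_span 𝒬 hx))
    rwa [h3.2 x hx] at this
  · rw [← h4 y hy]
    exact h6 y ((le_sup_right : P ≤ span 𝒬 X ⊔ P) hy)

theorem local_range_le {𝒬 : Set (Subgroup G)} {X : Set G} {P : Subgroup G} {φ : P →* G}
    (hφ : φ ∈ F.localHom 𝒬 X P) : φ.range ≤ F.stab 𝒬 X := by
  rintro _ ⟨y, rfl⟩
  obtain ⟨h1, g, h2, h3, h4⟩ := (mem_localHom_iff fun y => (toFun_apply φ y).symm).1 hφ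
  have h5 := map_stab h2 le_sup_left h3
    ((le_sup_right : P ≤ span 𝒬 X ⊔ P) y.2) (h1 y.2)
  rwa [h4 y y.2, toFun_apply] at h5

theorem local_injective {𝒬 : Set (Subgroup G)} {X : Set G} {P : Subgroup G} {φ : P →* G}
    (hφ : φ ∈ F.localHom 𝒬 X P) : Function.Injective φ := by
  intro y z e
  obtain ⟨h1, g, h2, h3, h4⟩ := (mem_localHom_iff fun y => (toFun_apply φ y).symm).1 hφ
  rw [← toFun_apply φ y, ← toFun_apply φ z, ← h4 y y.2, ← h4 z z.2] at e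
  exact Subtype.ext (h2.inj ((le_sup_right : P ≤ span 𝒬 X ⊔ P) y.2)
    ((le_sup_right : P ≤ span 𝒬 X ⊔ P) z.2) e)

theorem local_conj_mem {𝒬 : Set (Subgroup G)} {X : Set G} (hS : span 𝒬 X ≤ F.S) {s : G}
    (hs : s ∈ F.stab 𝒬 X) {P : Subgroup G} (hP : P ≤ F.stab 𝒬 X) :
    conjHom s P ∈ F.localHom 𝒬 X P :=
  (mem_localHom_iff (f := H380FS.cj s) fun _ => rfl).2 (lMor_cj hS hP hs)

theorem local_comp_mem {𝒬 : Set (Subgroup G)} {X : Set G} {P Q : Subgroup G} {φ : P →* G}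
    {ψ : Q →* G} (hφ : φ ∈ F.localHom 𝒬 X P) (hψ : ψ ∈ F.localHom 𝒬 X Q)
    (h : ∀ y, φ y ∈ Q) : ψ.comp (φ.codRestrict Q h) ∈ F.localHom 𝒬 X P := by
  have hφ' := (mem_localHom_iff fun y => (toFun_apply φ y).symm).1 hφ
  have hψ' := (mem_localHom_iff fun y => (toFun_apply ψ y).symm).1 hψ
  refine (mem_localHom_iff (f := toFun ψ ∘ toFun φ) fun y => ?_).2 (hφ'.comp hψ' ?_)
  · show ψ ⟨φ y, h y⟩ = toFun ψ (toFun φ y)
    rw [toFun_apply, toFun_apply' ψ (h y)]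
  · intro y hy
    rw [toFun_apply' φ hy]
    exact h _

theorem local_inv_mem {𝒬 : Set (Subgroup G)} {X : Set G} {P : Subgroup G} {φ : P →* G}
    (hφ : φ ∈ F.localHom 𝒬 X P) (ψ : φ.range →* G) (h : ∀ y : P, ψ ⟨φ y, ⟨y, rfl⟩⟩ = y) :
    ψ ∈ F.localHom 𝒬 X φ.range := by
  have hφ' := (mem_localHom_iff fun y => (toFun_apply φ y).symm).1 hφ
  obtain ⟨g, hg, hgf⟩ := hφ'.exists_inv
  have hr : φ.range = im (toFun φ) P := Mor.range_eq fun y => (toFun_apply φ y).symm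
  rw [← hr] at hg
  refine (mem_localHom_iff fun y => ?_).2 hg
  obtain ⟨_, ⟨y, rfl⟩⟩ := y
  rw [h y]
  have := hgf y y.2
  rw [toFun_apply] at this
  exact this.symm

theorem iso_iff {P Q : Subgroup G} : F.Iso P Q ↔ ∃ f, F.Mor P f ∧ im f P = Q := by
  constructor
  · rintro ⟨φ, hφ, rfl⟩
    exact ⟨toFun φ, mor_of_mem hφ, (Mor.range_eq fun y => (toFun_apply φ y).symm).symm⟩
  · rintro ⟨f, ⟨φ, hφ, h⟩, rfl⟩
    exact ⟨φ, hφ, Mor.range_eq h⟩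

variable (F) in
theorem iso_equivalence : Equivalence
    (fun P Q : {Q : Subgroup G // F.Centric Q} => F.Iso P.1 Q.1) where
  refl := fun P => iso_iff.2 ⟨id, Mor.id' P.2.1, im_id _⟩
  symm := by
    rintro ⟨P, hP⟩ ⟨Q, hQ⟩ h
    obtain ⟨f, hf, rfl⟩ := iso_iff.1 h
    obtain ⟨g, hg, hgf, -⟩ := hf.exists_inv
    refine iso_iff.2 ⟨g, hg, ?_⟩
    rw [← im_comp hf.mulOn P le_rfl]
    exact (im_congr hgf).trans (im_id P)
  trans := by
    rintro ⟨P, hP⟩ ⟨Q, hQ⟩ ⟨R, hR⟩ h h'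
    obtain ⟨f, hf, rfl⟩ := iso_iff.1 h
    obtain ⟨g, hg, rfl⟩ := iso_iff.1 h'
    exact iso_iff.2 ⟨g ∘ f, hf.comp hg fun y hy => mem_im_of_mem f hy,
      im_comp hf.mulOn P le_rfl⟩

theorem conj_iff {x y : G} : F.Conj x y ↔ ∃ f, F.Mor (Subgroup.zpowers x) f ∧ f x = y := by
  constructor
  · rintro ⟨φ, hφ, rfl⟩
    exact ⟨toFun φ, mor_of_mem hφ, toFun_apply' φ _⟩
  · rintro ⟨f, ⟨φ, hφ, h⟩, rfl⟩
    exact ⟨φ, hφ, h _⟩

theorem im_zpowers {x : G} {f : G → G} (h : MulOn (Subgroup.zpowers x) f) :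
    im f (Subgroup.zpowers x) = Subgroup.zpowers (f x) := by
  rw [Subgroup.zpowers_eq_closure, im_closure (R := Subgroup.zpowers x) h
    (by simp), Set.image_singleton, Subgroup.zpowers_eq_closure]

variable (F) in
theorem conj_equivalence : Equivalence (fun x y : {x : G // x ∈ F.S} => F.Conj x.1 y.1) where
  refl := fun x => conj_iff.2 ⟨id, Mor.id' (by simp), rfl⟩
  symm := by
    rintro ⟨x, hx⟩ ⟨y, hy⟩ h
    obtain ⟨f, hf, rfl⟩ := conj_iff.1 h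
    obtain ⟨g, hg, hgf, -⟩ := hf.exists_inv
    rw [im_zpowers hf.mulOn] at hg
    exact conj_iff.2 ⟨g, hg, hgf x (Subgroup.mem_zpowers x)⟩
  trans := by
    rintro ⟨x, hx⟩ ⟨y, hy⟩ ⟨z, hz⟩ h h'
    obtain ⟨f, hf, rfl⟩ := conj_iff.1 h
    obtain ⟨g, hg, rfl⟩ := conj_iff.1 h'
    refine conj_iff.2 ⟨g ∘ f, hf.comp hg fun y hy => ?_, rfl⟩
    rw [← im_zpowers hf.mulOn]
    exact mem_im_of_mem f hy

end FusionSystem

end Pool.Agent.H380FS
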