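import Pool.Agent.H380FS.Chain

/-!
# The toggling involution on normal chains
-/

namespace Pool.Agent.H380FS

universe u v

variable {G : Type u} [Group G]

/-- The set of `M`-conjugates of the elements of `P`. -/
def cset (M P : Subgroup G) : Set G := {y | ∃ m ∈ M, ∃ z ∈ P, m * z * m⁻¹ = y}

/-- The subgroup generated by the `M`-conjugates of `P`. -/
def ncl (M P : Subgroup G) : Subgroup G := Subgroup.closure (cset M P)

/-- The largest member of `σ` not containing `P` (or `⊥`). -/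
def low (σ : Set (Subgroup G)) (P : Subgroup G) : Subgroup G := sSup {Q ∈ σ | ¬ P ≤ Q}

open Classical in
/-- The subgroup which is inserted or removed. -/
noncomputable def tg (σ : Set (Subgroup G)) (P : Subgroup G) : Subgroup G :=
  if P ≤ sSup σ then low σ P ⊔ ncl (sSup σ) P else sSup σ ⊔ P

open Classical in
/-- The toggled chain. -/
noncomputable def toggle (σ : Set (Subgroup G)) (P : Subgroup G) : Set (Subgroup G) :=
  if tg σ P ∈ σ then σ \ {tg σ P} else insert (tg σ P) σ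

theorem le_ncl (M P : Subgroup G) : P ≤ ncl M P := fun y hy =>
  Subgroup.subset_closure ⟨1, M.one_mem, y, hy, by simp⟩

theorem ncl_le {M P Q : Subgroup G} (h : P ≤ Q) (hM : M ≤ Subgroup.normalizer (Q : Set G)) :
    ncl M P ≤ Q := by
  rw [ncl, Subgroup.closure_le]
  rintro _ ⟨m, hm, z, hz, rfl⟩
  exact (hM hm z).1 (h hz)

theorem low_le (σ : Set (Subgroup G)) (P : Subgroup G) : low σ P ≤ sSup σ :=
  sSup_le_sSup fun _ h => h.1

theorem le_normalizer_sup {A B C : Subgroup G} (hB : A ≤ Subgroup.normalizer (B : Set G))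
    (hC : A ≤ Subgroup.normalizer (C : Set G)) :
    A ≤ Subgroup.normalizer ((B ⊔ C : Subgroup G) : Set G) := by
  intro a ha
  have h1 := mem_normalizer_iff_im.1 (hB ha)
  have h2 := mem_normalizer_iff_im.1 (hC ha)
  rw [mem_normalizer_iff_im, im_sup (mulOn_cj a (B ⊔ C)) le_sup_left le_sup_right, h1, h2]

theorem le_normalizer_ncl (M P : Subgroup G) :
    M ≤ Subgroup.normalizer ((ncl M P : Subgroup G) : Set G) := by
  intro m hm
  rw [mem_normalizer_iff_im, ncl, im_closure (mulOn_cj m ⊤) (fun _ _ => Subgroup.mem_top _)]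
  congr 1
  ext y
  constructor
  · rintro ⟨_, ⟨n, hn, z, hz, rfl⟩, rfl⟩
    exact ⟨m * n, M.mul_mem hm hn, z, hz, by rw [cj]; group⟩
  · rintro ⟨n, hn, z, hz, rfl⟩
    exact ⟨_, ⟨m⁻¹ * n, M.mul_mem (M.inv_mem hm) hn, z, hz, rfl⟩, by rw [cj]; group⟩

theorem le_normalizer_bot (A : Subgroup G) :
    A ≤ Subgroup.normalizer ((⊥ : Subgroup G) : Set G) := by
  intro a _
  rw [mem_normalizer_iff_im]
  have := (mulOn_cj a (⊥ : Subgroup G))
  ext y
  rw [mem_im this]
  constructor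
  · rintro ⟨z, hz, rfl⟩
    rw [Subgroup.mem_bot.1 hz, cj]
    simp
  · intro hy
    rw [Subgroup.mem_bot.1 hy]
    exact ⟨1, Subgroup.one_mem _, by simp [cj]⟩

/-- In a finite `p`-group `M`: if `L` is normal and `L` together with the conjugates of `P`
generates `M`, then `L` and `P` generate `M`. -/
theorem sup_eq_of_ncl [Finite G] {p : ℕ} [Fact p.Prime] {M L P : Subgroup G}
    (hp : IsPGroup p M) (hL : L ≤ M) (hP : P ≤ M)
    (h : L ⊔ ncl M P = M) : L ⊔ P = M := by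
  by_contra hne
  have hlt : L ⊔ P < M := lt_of_le_of_ne (sup_le hL hP) hne
  have h1 : (L ⊔ P).subgroupOf M ≠ ⊤ := by
    intro h2
    rw [Subgroup.subgroupOf_eq_top] at h2
    exact hne (le_antisymm (sup_le hL hP) h2)
  obtain h2 | ⟨X, hX, hXle⟩ := eq_top_or_exists_le_coatom ((L ⊔ P).subgroupOf M)
  · exact h1 h2
  have hnil := hp.isNilpotent
  have hn : X.Normal := Subgroup.NormalizerCondition.normal_of_coatom X
    Group.normalizerCondition_of_isNilpotent hX
  have hY : M ≤ Subgroup.normalizer ((X.map M.subtype : Subgroup G) : Set G) := by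
    intro m hm y
    constructor
    · rintro ⟨z, hz, rfl⟩
      exact ⟨⟨m, hm⟩ * z * ⟨m, hm⟩⁻¹, hn.conj_mem z hz _, rfl⟩
    · rintro ⟨z, hz, e⟩
      refine ⟨⟨m, hm⟩⁻¹ * z * ⟨m, hm⟩, ?_, ?_⟩
      · have := hn.conj_mem z hz ⟨m, hm⟩⁻¹
        rwa [inv_inv] at this
      · have e' : (z : G) = m * y * m⁻¹ := e
        show m⁻¹ * (z : G) * m = y
        rw [e']; group
  have hle : L ⊔ P ≤ X.map M.subtype := by
    intro y hy
    have hyM : y ∈ M := hlt.le hy
    exact ⟨⟨y, hyM⟩, hXle (by rw [Subgroup.mem_subgroupOf]; exact hy), rfl⟩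
  have hM : M ≤ X.map M.subtype := by
    have h3 : L ⊔ ncl M P ≤ X.map M.subtype :=
      sup_le (le_sup_left.trans hle) (ncl_le (le_sup_right.trans hle) hY)
    rwa [h] at h3
  apply hX.1
  rw [Subgroup.eq_top_iff']
  intro y
  obtain ⟨z, hz, e⟩ := hM y.2
  have : z = y := Subtype.ext e
  rwa [← this]

/-- The hypotheses on a chain `σ` and a subgroup `P`. -/
structure Good (S : Subgroup G) (σ : Set (Subgroup G)) (P : Subgroup G) : Prop where
  ne_bot : ∀ Q ∈ σ, Q ≠ ⊥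
  le : ∀ Q ∈ σ, Q ≤ S
  chain : IsChain (· ≤ ·) σ
  normal : ∀ Q ∈ σ, sSup σ ≤ Subgroup.normalizer (Q : Set G)
  P_le : P ≤ S
  P_ne : P ≠ ⊥
  P_normal : ∀ Q ∈ σ, P ≤ Subgroup.normalizer (Q : Set G)

theorem le_tg (σ : Set (Subgroup G)) (P : Subgroup G) : P ≤ tg σ P := by
  rw [tg]
  split_ifs with h
  · exact (le_ncl _ _).trans le_sup_right
  · exact le_sup_right

theorem tg_le (σ : Set (Subgroup G)) (P : Subgroup G) : tg σ P ≤ sSup σ ⊔ P := by
  rw [tg]
  split_ifs with h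
  · exact sup_le ((low_le σ P).trans le_sup_left)
      ((ncl_le h Subgroup.le_normalizer).trans le_sup_left)
  · exact le_rfl

theorem tg_of_le {σ : Set (Subgroup G)} {P : Subgroup G} (h : P ≤ sSup σ) :
    tg σ P = low σ P ⊔ ncl (sSup σ) P := by
  rw [tg, if_pos h]

theorem tg_of_not_le {σ : Set (Subgroup G)} {P : Subgroup G} (h : ¬ P ≤ sSup σ) :
    tg σ P = sSup σ ⊔ P := by
  rw [tg, if_neg h]

theorem tg_le_sSup {σ : Set (Subgroup G)} {P : Subgroup G} (h : P ≤ sSup σ) :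
    tg σ P ≤ sSup σ := (tg_le σ P).trans (sup_le le_rfl h)

theorem le_tg_of_not_le {σ : Set (Subgroup G)} {P Q : Subgroup G} (hQ : Q ∈ σ)
    (h : ¬ P ≤ Q) : Q ≤ tg σ P := by
  rw [tg]
  split_ifs with h'
  · refine le_trans (le_sSup ?_) le_sup_left
    exact ⟨hQ, h⟩
  · exact (le_sSup hQ).trans le_sup_left

namespace Good

variable {S : Subgroup G} {σ : Set (Subgroup G)} {P : Subgroup G}

theorem tg_le_of_le (h : Good S σ P) {Q : Subgroup G} (hQ : Q ∈ σ) (hPQ : P ≤ Q) :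
    tg σ P ≤ Q := by
  rw [tg_of_le (hPQ.trans (le_sSup hQ))]
  refine sup_le (sSup_le ?_) (ncl_le hPQ (h.normal Q hQ))
  rintro R ⟨hR, hPR⟩
  rcases h.chain.total hR hQ with h1 | h1
  · exact h1
  · exact absurd (hPQ.trans h1) hPR

theorem sSup_le (h : Good S σ P) : sSup σ ≤ S := _root_.sSup_le h.le

theorem tg_le' (h : Good S σ P) : tg σ P ≤ S := (tg_le σ P).trans (sup_le h.sSup_le h.P_le)

variable [Finite G]

theorem low_mem (h : Good S σ P) : low σ P = ⊥ ∨ (low σ P ∈ σ ∧ ¬ P ≤ low σ P) := by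
  by_cases hne : {Q ∈ σ | ¬ P ≤ Q}.Nonempty
  · right
    have := sSup_mem_of_chain (Set.toFinite _) hne (h.chain.mono fun _ h => h.1)
    exact this
  · left
    rw [Set.not_nonempty_iff_eq_empty] at hne
    rw [low, hne, sSup_empty]

theorem low_normal (h : Good S σ P) :
    sSup σ ≤ Subgroup.normalizer ((low σ P : Subgroup G) : Set G) := by
  rcases h.low_mem with h1 | h1
  · rw [h1]; exact le_normalizer_bot _
  · exact h.normal _ h1.1

theorem tg_normal (h : Good S σ P) :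
    sSup σ ⊔ P ≤ Subgroup.normalizer ((tg σ P : Subgroup G) : Set G) := by
  refine sup_le ?_ ((le_tg σ P).trans Subgroup.le_normalizer)
  by_cases hP : P ≤ sSup σ
  · rw [tg_of_le hP]
    exact le_normalizer_sup h.low_normal (le_normalizer_ncl _ _)
  · rw [tg_of_not_le hP]
    exact le_sup_left.trans Subgroup.le_normalizer

theorem insert (h : Good S σ P) : Good S (insert (tg σ P) σ) P where
  ne_bot := by
    rintro Q (rfl | hQ)
    · intro e
      have := le_tg σ P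
      rw [e] at this
      exact h.P_ne (le_bot_iff.1 this)
    · exact h.ne_bot Q hQ
  le := by
    rintro Q (rfl | hQ)
    · exact h.tg_le'
    · exact h.le Q hQ
  chain := by
    refine h.chain.insert fun Q hQ _ => ?_
    by_cases hPQ : P ≤ Q
    · exact Or.inl (h.tg_le_of_le hQ hPQ)
    · exact Or.inr (le_tg_of_not_le hQ hPQ)
  normal := by
    have h1 : sSup (Insert.insert (tg σ P) σ) ≤ sSup σ ⊔ P := by
      rw [sSup_insert]
      exact sup_le (tg_le σ P) le_sup_left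
    rintro Q (rfl | hQ)
    · exact h1.trans h.tg_normal
    · exact h1.trans (sup_le (h.normal Q hQ) (h.P_normal Q hQ))
  P_le := h.P_le
  P_ne := h.P_ne
  P_normal := by
    rintro Q (rfl | hQ)
    · exact (le_tg σ P).trans Subgroup.le_normalizer
    · exact h.P_normal Q hQ

omit [Finite G] in
theorem mono (h : Good S σ P) {τ : Set (Subgroup G)} (hτ : τ ⊆ σ) : Good S τ P where
  ne_bot Q hQ := h.ne_bot Q (hτ hQ)
  le Q hQ := h.le Q (hτ hQ)
  chain := h.chain.mono hτ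
  normal Q hQ := (sSup_le_sSup hτ).trans (h.normal Q (hτ hQ))
  P_le := h.P_le
  P_ne := h.P_ne
  P_normal Q hQ := h.P_normal Q (hτ hQ)

omit [Finite G] in
theorem low_insert (_h : Good S σ P) : low (Insert.insert (tg σ P) σ) P = low σ P := by
  rw [low, low]
  congr 1
  ext Q
  constructor
  · rintro ⟨rfl | hQ, hPQ⟩
    · exact absurd (le_tg σ P) hPQ
    · exact ⟨hQ, hPQ⟩
  · rintro ⟨hQ, hPQ⟩
    exact ⟨Or.inr hQ, hPQ⟩

omit [Finite G] in
theorem low_diff (_h : Good S σ P) : low (σ \ {tg σ P}) P = low σ P := by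
  rw [low, low]
  congr 1
  ext Q
  constructor
  · rintro ⟨hQ, hPQ⟩
    exact ⟨hQ.1, hPQ⟩
  · rintro ⟨hQ, hPQ⟩
    refine ⟨⟨hQ, ?_⟩, hPQ⟩
    rintro rfl
    exact hPQ (le_tg σ P)

omit [Finite G] in
theorem tg_insert (h : Good S σ P) : tg (Insert.insert (tg σ P) σ) P = tg σ P := by
  have h1 : sSup (Insert.insert (tg σ P) σ) = tg σ P ⊔ sSup σ := sSup_insert
  by_cases hP : P ≤ sSup σ
  · have h2 : tg σ P ⊔ sSup σ = sSup σ := sup_eq_right.2 (tg_le_sSup hP)
    rw [h2] at h1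
    rw [tg_of_le (by rw [h1]; exact hP), h1, h.low_insert, tg_of_le hP]
  · have h2 : tg σ P ⊔ sSup σ = tg σ P := by
      rw [tg_of_not_le hP]
      exact sup_eq_left.2 le_sup_left
    rw [h2] at h1
    rw [tg_of_le (by rw [h1]; exact le_tg σ P), h1, h.low_insert]
    have h3 : low σ P = sSup σ := by
      rw [low]
      congr 1
      ext Q
      exact ⟨fun hQ => hQ.1, fun hQ => ⟨hQ, fun hPQ => hP (hPQ.trans (le_sSup hQ))⟩⟩
    rw [h3]
    refine le_antisymm (sup_le ?_ ?_) ?_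
    · rw [tg_of_not_le hP]; exact le_sup_left
    · exact ncl_le (le_tg σ P) Subgroup.le_normalizer
    · conv_lhs => rw [tg_of_not_le hP]
      exact sup_le_sup le_rfl (le_ncl _ _)

variable {p : ℕ} [Fact p.Prime]

/-- The key facts about removing `tg σ P` if it is the largest member. -/
theorem eq_sup_of_top (hp : IsPGroup p S) (h : Good S σ P) (_hmem : tg σ P ∈ σ)
    (htop : tg σ P = sSup σ) : sSup (σ \ {tg σ P}) = low σ P ∧ low σ P ⊔ P = sSup σ ∧
      ¬ P ≤ low σ P := by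
  have hP : P ≤ sSup σ := by rw [← htop]; exact le_tg σ P
  have h1 : sSup (σ \ {tg σ P}) = low σ P := by
    rw [low]
    congr 1
    ext Q
    constructor
    · rintro ⟨hQ, hne⟩
      refine ⟨hQ, fun hPQ => hne ?_⟩
      refine le_antisymm ?_ (h.tg_le_of_le hQ hPQ)
      rw [htop]
      exact le_sSup hQ
    · rintro ⟨hQ, hPQ⟩
      refine ⟨hQ, ?_⟩
      rintro rfl
      exact hPQ (le_tg σ P)
  refine ⟨h1, ?_, ?_⟩
  · refine sup_eq_of_ncl (hp.to_le h.sSup_le) (low_le σ P) hP ?_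
    rw [← tg_of_le hP, htop]
  · rcases h.low_mem with h2 | h2
    · rw [h2]
      exact fun h3 => h.P_ne (le_bot_iff.1 h3)
    · exact h2.2

theorem sSup_diff_of_ne (h : Good S σ P) (hmem : tg σ P ∈ σ) (hne : tg σ P ≠ sSup σ) :
    sSup (σ \ {tg σ P}) = sSup σ := by
  refine le_antisymm (sSup_le_sSup Set.sdiff_subset) (le_sSup ?_)
  exact ⟨sSup_mem_of_chain (Set.toFinite _) ⟨_, hmem⟩ h.chain, fun e => hne e.symm⟩

theorem tg_diff (hp : IsPGroup p S) (h : Good S σ P) (hmem : tg σ P ∈ σ) :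
    tg (σ \ {tg σ P}) P = tg σ P := by
  have hP : P ≤ sSup σ := (le_tg σ P).trans (le_sSup hmem)
  by_cases htop : tg σ P = sSup σ
  · obtain ⟨h1, h2, h3⟩ := h.eq_sup_of_top hp hmem htop
    rw [tg_of_not_le (by rw [h1]; exact h3), h1, h2, htop]
  · have h1 := h.sSup_diff_of_ne hmem htop
    rw [tg_of_le (by rw [h1]; exact hP), h1, h.low_diff, tg_of_le hP]

theorem toggle (h : Good S σ P) : Good S (toggle σ P) P := by
  rw [H380FS.toggle]
  split_ifs with hmem
  · exact h.mono Set.sdiff_subset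
  · exact h.insert

theorem tg_toggle (hp : IsPGroup p S) (h : Good S σ P) : tg (H380FS.toggle σ P) P = tg σ P := by
  rw [H380FS.toggle]
  split_ifs with hmem
  · exact h.tg_diff hp hmem
  · exact h.tg_insert

theorem toggle_toggle (hp : IsPGroup p S) (h : Good S σ P) :
    H380FS.toggle (H380FS.toggle σ P) P = σ := by
  rw [H380FS.toggle, h.tg_toggle hp, H380FS.toggle]
  by_cases hmem : tg σ P ∈ σ
  · rw [if_pos hmem, if_neg (by simp), Set.insert_sdiff_singleton, Set.insert_eq_of_mem hmem]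
  · rw [if_neg hmem, if_pos (Set.mem_insert _ _)]
    rw [Set.insert_sdiff_of_mem _ (Set.mem_singleton _), Set.sdiff_singleton_eq_self hmem]

theorem sSup_toggle (hp : IsPGroup p S) (h : Good S σ P) :
    sSup (H380FS.toggle σ P) ⊔ P = sSup σ ⊔ P := by
  rw [H380FS.toggle]
  split_ifs with hmem
  · by_cases htop : tg σ P = sSup σ
    · obtain ⟨h1, h2, h3⟩ := h.eq_sup_of_top hp hmem htop
      have hP : P ≤ sSup σ := by rw [← htop]; exact le_tg σ P
      rw [h1, h2, sup_eq_left.2 hP]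
    · rw [h.sSup_diff_of_ne hmem htop]
  · rw [sSup_insert]
    refine le_antisymm (sup_le (sup_le (tg_le σ P) le_sup_left) le_sup_right) ?_
    exact sup_le_sup le_sup_right le_rfl

theorem ncard_toggle (_h : Good S σ P) :
    (-1 : ℤ) ^ (H380FS.toggle σ P).ncard = - (-1) ^ σ.ncard := by
  rw [H380FS.toggle]
  split_ifs with hmem
  · have := Set.ncard_sdiff_singleton_add_one hmem (Set.toFinite σ)
    rw [← this, pow_succ]
    ring
  · rw [Set.ncard_insert_of_notMem hmem (Set.toFinite σ), pow_succ]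
    ring

end Good

namespace FusionSystem

variable {F : FusionSystem G} {σ : Set (Subgroup G)} {D P : Subgroup G} {g : G → G}

theorem Mor.ncl (hg : F.Mor D g) {M : Subgroup G} (hM : M ≤ D) (hP : P ≤ D) :
    ncl (im g M) (im g P) = im g (ncl M P) := by
  have hX : cset M P ⊆ D := by
    rintro _ ⟨m, hm, z, hz, rfl⟩
    exact D.mul_mem (D.mul_mem (hM hm) (hP hz)) (D.inv_mem (hM hm))
  have key : ∀ m ∈ M, ∀ z ∈ P, g m * g z * (g m)⁻¹ = g (m * z * m⁻¹) := by
    intro m hm z hz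
    rw [hg.mulOn _ (D.mul_mem (hM hm) (hP hz)) _ (D.inv_mem (hM hm)), hg.mulOn _ (hM hm) _ (hP hz),
      hg.mulOn.inv (hM hm)]
  rw [H380FS.ncl, H380FS.ncl, im_closure hg.mulOn hX]
  congr 1
  ext y
  constructor
  · rintro ⟨m, hm, z, hz, rfl⟩
    rw [mem_im (hg.mulOn.mono hM)] at hm
    rw [mem_im (hg.mulOn.mono hP)] at hz
    obtain ⟨m, hm, rfl⟩ := hm
    obtain ⟨z, hz, rfl⟩ := hz
    exact ⟨_, ⟨m, hm, z, hz, rfl⟩, (key m hm z hz).symm⟩
  · rintro ⟨_, ⟨m, hm, z, hz, rfl⟩, rfl⟩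
    exact ⟨_, mem_im_of_mem g hm, _, mem_im_of_mem g hz, key m hm z hz⟩

theorem Mor.low (hg : F.Mor D g) (hσ : sSup σ ≤ D) (hP : P ≤ D) :
    low (im g '' σ) (im g P) = im g (low σ P) := by
  rw [H380FS.low, H380FS.low, im_sSup hg.mulOn fun Q hQ => (le_sSup hQ.1).trans hσ]
  congr 1
  ext Q'
  constructor
  · rintro ⟨⟨Q, hQ, rfl⟩, h⟩
    exact ⟨Q, ⟨hQ, fun h' => h (im_mono g h')⟩, rfl⟩
  · rintro ⟨Q, ⟨hQ, h⟩, rfl⟩
    exact ⟨⟨Q, hQ, rfl⟩, fun h' => h ((hg.im_le_im_iff hP ((le_sSup hQ).trans hσ)).1 h')⟩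

theorem Mor.tg (hg : F.Mor D g) (hσ : sSup σ ≤ D) (hP : P ≤ D) :
    tg (im g '' σ) (im g P) = im g (tg σ P) := by
  have h1 : sSup (im g '' σ) = im g (sSup σ) :=
    (im_sSup hg.mulOn fun Q hQ => (le_sSup hQ).trans hσ).symm
  have h2 : im g P ≤ sSup (im g '' σ) ↔ P ≤ sSup σ := by
    rw [h1]; exact hg.im_le_im_iff hP hσ
  have h3 : H380FS.ncl (sSup σ) P ≤ D := by
    rw [H380FS.ncl, Subgroup.closure_le]
    rintro _ ⟨m, hm, z, hz, rfl⟩
    exact D.mul_mem (D.mul_mem (hσ hm) (hP hz)) (D.inv_mem (hσ hm))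
  by_cases h : P ≤ sSup σ
  · rw [tg_of_le (h2.2 h), tg_of_le h, hg.low hσ hP, h1, hg.ncl hσ hP,
      im_sup hg.mulOn ((low_le σ P).trans hσ) h3]
  · rw [tg_of_not_le (fun h' => h (h2.1 h')), tg_of_not_le h, h1, im_sup hg.mulOn hσ hP]

theorem Mor.toggle (hg : F.Mor D g) (hσ : sSup σ ≤ D) (hP : P ≤ D) :
    toggle (im g '' σ) (im g P) = im g '' (toggle σ P) := by
  have hle : H380FS.tg σ P ≤ D := (tg_le σ P).trans (sup_le hσ hP)
  have hσ' : ∀ Q ∈ σ, Q ≤ D := fun Q hQ => (le_sSup hQ).trans hσ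
  have h1 : im g (H380FS.tg σ P) ∈ im g '' σ ↔ H380FS.tg σ P ∈ σ := by
    constructor
    · rintro ⟨Q, hQ, e⟩
      rwa [← hg.im_inj (hσ' Q hQ) hle e]
    · intro h
      exact ⟨_, h, rfl⟩
  rw [H380FS.toggle, H380FS.toggle, hg.tg hσ hP]
  by_cases h : H380FS.tg σ P ∈ σ
  · rw [if_pos (h1.2 h), if_pos h]
    ext Q'
    constructor
    · rintro ⟨⟨Q, hQ, rfl⟩, hne⟩
      exact ⟨Q, ⟨hQ, fun e => hne (by rw [Set.mem_singleton_iff.1 e]; rfl)⟩, rfl⟩
    · rintro ⟨Q, ⟨hQ, hne⟩, rfl⟩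
      exact ⟨⟨Q, hQ, rfl⟩, fun e => hne (hg.im_inj (hσ' Q hQ) hle e)⟩
  · rw [if_neg (fun h' => h (h1.1 h')), if_neg h, Set.image_insert_eq]

end FusionSystem

end Pool.Agent.H380FS
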