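import Pool.Agent.H380FS.Final
import Pool.Agent.H380FS.P1

/-!
# The number `z` as a weight
-/

namespace Pool.Agent.H380FS

universe u v

/-- `z(k_α H)` for a class `α ∈ H²(H, kˣ)`: the number of isomorphism classes of simple
projective modules of the group algebra of `H` twisted by (a cocycle representing) `α`. -/
noncomputable def zClass {k : Type v} [Field k] {H : Type u} [Group H] (α : H2 k H) : ℕ :=
  Quotient.lift (s := cocycleSetoid k H) (fun a => zNum (TwAlg a))
    (by exact zNum_cohomologous) α

/-- The weight `(H, α) ↦ z(k_α H)` of the question. -/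
noncomputable def zWeight (k : Type v) [Field k] : Weight.{u, v} k where
  fn _ _ α := zClass α
  iso H H' _ _ e α := by
    induction α using Quotient.inductionOn with
    | h a => exact zNum_twisted e ((cohomologous_equivalence k H).refl _)

/-- `w(F, α)` and `k(F, α)` are formed with the weight `W`, and the alternating chain sum identity
holds for them, the chains running over `𝒞`. -/
def ChainSum {k : Type v} [Field k] (W : Weight.{u, v} k) {G : Type u} [Group G]
    (F : FusionSystem G) (α : F.Family k) (𝒞 : Finset (Set (Subgroup G))) : Prop :=
  letI := W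
  (F.k α : ℤ) = ∑ σ ∈ 𝒞, (-1) ^ (σ.ncard - 1) * ((F.localSub σ ∅).k (α.res σ ∅) : ℤ)

end Pool.Agent.H380FS
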